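import Mathlib
import Pool.Agent.Results.MP_c42e77_an.ContinuumLevel

set_option autoImplicit false

open Set Filter Topology
open Pool.Agent.Results.MP_c42e77_an.ContinuumLevel (subsum cardFun levelSet)

namespace Pool.Agent.Zk93.CL

/-- shift of a sequence -/
def sh {α : Type} (n : ℕ) (x : ℕ → α) : ℕ → α := fun k => x (n + k)

/-- `w` on the first `n` places, then `η` -/
def pre (n : ℕ) (w η : ℕ → Bool) : ℕ → Bool := fun k => if k < n then w k else η (k - n)

lemma sh_pre (n : ℕ) (w η : ℕ → Bool) : sh n (pre n w η) = η := by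
  funext k
  simp [sh, pre]

lemma pre_sh (n : ℕ) (w ε : ℕ → Bool) (h : ∀ k < n, w k = ε k) : pre n w (sh n ε) = ε := by
  funext k
  unfold pre sh
  by_cases hk : k < n
  · rw [if_pos hk, h k hk]
  · rw [if_neg hk]
    congr 1
    omega

lemma pre_lt (n : ℕ) (w η : ℕ → Bool) {k : ℕ} (hk : k < n) : pre n w η k = w k := by
  simp [pre, hk]

/-- complement -/
def co (ε : ℕ → Bool) : ℕ → Bool := fun k => ! ε k

lemma co_co (ε : ℕ → Bool) : co (co ε) = ε := by
  funext k; simp [co]

section
variable {x : ℕ → ℝ}

lemma sm (h0 : ∀ n, 0 ≤ x n) (hs : Summable x) (ε : ℕ → Bool) :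
    Summable (fun n => if ε n = true then x n else 0) := by
  refine Summable.of_nonneg_of_le (fun n => ?_) (fun n => ?_) hs
  · split_ifs
    · exact h0 n
    · exact le_refl _
  · split_ifs
    · exact le_refl _
    · exact h0 n

/-- partial sum -/
noncomputable def ps (x : ℕ → ℝ) (ε : ℕ → Bool) (n : ℕ) : ℝ :=
  ∑ k ∈ Finset.range n, if ε k = true then x k else 0

lemma split (h0 : ∀ n, 0 ≤ x n) (hs : Summable x) (ε : ℕ → Bool) (n : ℕ) :
    subsum x ε = ps x ε n + subsum (sh n x) (sh n ε) := by
  unfold subsum ps sh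
  rw [← (sm h0 hs ε).sum_add_tsum_nat_add n]
  congr 1
  refine tsum_congr fun k => ?_
  rw [add_comm k n]

lemma split_tot (hs : Summable x) (n : ℕ) :
    ∑' k, x k = ∑ k ∈ Finset.range n, x k + ∑' k, sh n x k := by
  unfold sh
  rw [← hs.sum_add_tsum_nat_add n]
  congr 1
  refine tsum_congr fun k => ?_
  rw [add_comm k n]

lemma sh_nonneg (h0 : ∀ n, 0 ≤ x n) (n : ℕ) : ∀ k, 0 ≤ sh n x k := fun _ => h0 _

lemma sh_pos (h0 : ∀ n, 0 < x n) (n : ℕ) : ∀ k, 0 < sh n x k := fun _ => h0 _

lemma sh_summable (hs : Summable x) (n : ℕ) : Summable (sh n x) := by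
  have := (summable_nat_add_iff n).2 hs
  refine this.congr fun k => ?_
  unfold sh
  rw [add_comm]

lemma sh_sh {α : Type} (x : ℕ → α) (m n : ℕ) : sh m (sh n x) = sh (n + m) x := by
  funext k
  unfold sh
  congr 1
  omega

lemma subsum_nonneg (h0 : ∀ n, 0 ≤ x n) (ε : ℕ → Bool) : 0 ≤ subsum x ε := by
  unfold subsum
  refine tsum_nonneg fun n => ?_
  split_ifs
  · exact h0 n
  · exact le_refl _

lemma subsum_co (h0 : ∀ n, 0 ≤ x n) (hs : Summable x) (ε : ℕ → Bool) :
    subsum x (co ε) = ∑' n, x n - subsum x ε := by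
  unfold subsum
  rw [eq_sub_iff_add_eq, ← (sm h0 hs (co ε)).tsum_add (sm h0 hs ε)]
  refine tsum_congr fun n => ?_
  unfold co
  cases ε n <;> simp

lemma subsum_le (h0 : ∀ n, 0 ≤ x n) (hs : Summable x) (ε : ℕ → Bool) :
    subsum x ε ≤ ∑' n, x n := by
  have h1 := subsum_nonneg h0 (co ε)
  rw [subsum_co h0 hs] at h1
  linarith

lemma le_subsum (h0 : ∀ n, 0 ≤ x n) (hs : Summable x) (ε : ℕ → Bool) {n : ℕ} (hn : ε n = true) :
    x n ≤ subsum x ε := by
  unfold subsum
  have := (sm h0 hs ε).le_tsum n (fun m _ => by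
    split_ifs
    · exact h0 m
    · exact le_refl _)
  simpa [hn] using this

lemma cont (h0 : ∀ n, 0 < x n) (hs : Summable x) : Continuous (subsum x) :=
  Pool.Agent.Results.MP_c42e77_an.ContinuumLevel.continuous_subsum x hs h0

/-- the remainders of the greedy expansion of `v` -/
noncomputable def rem (x : ℕ → ℝ) (v : ℝ) : ℕ → ℝ
  | 0 => v
  | n + 1 => if x n ≤ rem x v n then rem x v n - x n else rem x v n

open Classical in
/-- the greedy expansion of `v` -/
noncomputable def gre (x : ℕ → ℝ) (v : ℝ) : ℕ → Bool := fun n => if x n ≤ rem x v n then true else false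

/-- Kakeya: if no term exceeds the sum of the later ones, all numbers are subsums -/
lemma kak (h0 : ∀ n, 0 ≤ x n) (hs : Summable x) (hk : ∀ n, x n ≤ ∑' k, sh (n + 1) x k)
    {v : ℝ} (hv : 0 ≤ v) (hv2 : v ≤ ∑' k, x k) : ∃ ε : ℕ → Bool, subsum x ε = v := by
  have hr0 : rem x v 0 = v := rfl
  have hrs : ∀ n, rem x v (n + 1) = if x n ≤ rem x v n then rem x v n - x n else rem x v n :=
    fun n => rfl
  have hT : ∀ n, ∑' k, sh n x k = x n + ∑' k, sh (n + 1) x k := by
    intro n
    have := split_tot (sh_summable hs n) 1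
    rw [this, sh_sh]
    simp [sh]
  have hinv : ∀ n, 0 ≤ rem x v n ∧ rem x v n ≤ ∑' k, sh n x k := by
    intro n
    induction n with
    | zero =>
        rw [hr0]
        refine ⟨hv, ?_⟩
        have : sh 0 x = x := by funext k; simp [sh]
        rw [this]; exact hv2
    | succ n ih =>
        rw [hrs]
        split_ifs with h
        · refine ⟨by linarith, ?_⟩
          have := hT n
          linarith [ih.2]
        · push Not at h
          exact ⟨ih.1, by linarith [hk n]⟩
  have hps : ∀ n, ps x (gre x v) n = v - rem x v n := by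
    intro n
    induction n with
    | zero => simp [ps, hr0]
    | succ n ih =>
        unfold ps at ih ⊢
        rw [Finset.sum_range_succ, ih, hrs]
        by_cases h : x n ≤ rem x v n
        · simp only [gre, h, if_true]
          ring
        · simp [gre, h]
  refine ⟨gre x v, ?_⟩
  have hlim : Tendsto (fun n => ps x (gre x v) n) atTop (𝓝 (subsum x (gre x v))) :=
    (sm h0 hs (gre x v)).hasSum.tendsto_sum_nat
  have hlim2 : Tendsto (fun n => ps x (gre x v) n) atTop (𝓝 v) := by
    have h1 : Tendsto (fun n => ∑' k, sh n x k) atTop (𝓝 0) := by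
      have := tendsto_sum_nat_add x
      refine this.congr fun n => tsum_congr fun k => ?_
      unfold sh
      rw [add_comm]
    have h2 : Tendsto (rem x v) atTop (𝓝 0) :=
      squeeze_zero (fun n => (hinv n).1) (fun n => (hinv n).2) h1
    have h3 : Tendsto (fun n => v - rem x v n) atTop (𝓝 (v - 0)) := tendsto_const_nhds.sub h2
    rw [sub_zero] at h3
    exact h3.congr fun n => (hps n).symm
  exact tendsto_nhds_unique hlim hlim2

/-- representations of `t` -/
def K (x : ℕ → ℝ) (t : ℝ) : Set (ℕ → Bool) := {ε | subsum x ε = t}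

lemma mem_level {t : ℝ} : t ∈ levelSet x Cardinal.aleph0 ↔ (K x t).Infinite ∧ (K x t).Countable := by
  unfold levelSet cardFun
  rw [Set.mem_ofPred_eq]
  constructor
  · intro h
    refine ⟨?_, ?_⟩
    · rw [← Set.infinite_coe_iff]
      exact Cardinal.infinite_iff.2 h.ge
    · exact Cardinal.le_aleph0_iff_set_countable.1 h.le
  · rintro ⟨h1, h2⟩
    refine le_antisymm (Cardinal.le_aleph0_iff_set_countable.2 h2) ?_
    exact Cardinal.infinite_iff.1 h1.to_subtype

lemma K_closed (h0 : ∀ n, 0 < x n) (hs : Summable x) (t : ℝ) : IsClosed (K x t) :=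
  isClosed_singleton.preimage (cont h0 hs)

lemma zero_notMem (h0 : ∀ n, 0 < x n) (hs : Summable x) {t : ℝ}
    (ht : t ∈ levelSet x Cardinal.aleph0) : 0 < t ∧ t < ∑' n, x n := by
  obtain ⟨h1, -⟩ := mem_level.1 ht
  obtain ⟨ε, hε⟩ := h1.nonempty
  have hn : ∀ n, 0 ≤ x n := fun n => (h0 n).le
  have key : ∀ t : ℝ, (K x t).Infinite → t ≠ 0 := by
    rintro t h rfl
    apply h
    refine Set.Finite.subset (Set.finite_singleton (fun _ => false)) ?_
    intro η hη
    rw [Set.mem_singleton_iff]
    funext n
    by_contra hne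
    have hne' : η n = true := by simpa using hne
    have := le_subsum hn hs η hne'
    have h3 : subsum x η = 0 := hη
    linarith [h0 n]
  have hb := subsum_nonneg hn ε
  have hb2 := subsum_le hn hs ε
  have hε' : subsum x ε = t := hε
  rw [hε'] at hb hb2
  refine ⟨lt_of_le_of_ne hb (key t h1).symm, ?_⟩
  rcases hb2.lt_or_eq with h | h
  · exact h
  · exfalso
    have h4 : (K x 0).Infinite := by
      have : (co '' (K x t)).Infinite := h1.image (fun a _ b _ hab => by
        rw [← co_co a, ← co_co b, hab])
      refine this.mono ?_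
      rintro _ ⟨η, hη, rfl⟩
      show subsum x (co η) = 0
      rw [subsum_co hn hs]
      have : subsum x η = t := hη
      rw [this, h]; ring
    exact key 0 h4 rfl

lemma level_co (h0 : ∀ n, 0 < x n) (hs : Summable x) {t : ℝ}
    (ht : t ∈ levelSet x Cardinal.aleph0) : ∑' n, x n - t ∈ levelSet x Cardinal.aleph0 := by
  obtain ⟨h1, h2⟩ := mem_level.1 ht
  have hn : ∀ n, 0 ≤ x n := fun n => (h0 n).le
  have he : K x (∑' n, x n - t) = co '' (K x t) := by
    ext η
    constructor
    · intro h
      refine ⟨co η, ?_, co_co η⟩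
      show subsum x (co η) = t
      rw [subsum_co hn hs]
      have : subsum x η = ∑' n, x n - t := h
      rw [this]; ring
    · rintro ⟨η, hη, rfl⟩
      show subsum x (co η) = _
      rw [subsum_co hn hs]
      have : subsum x η = t := hη
      rw [this]
  rw [mem_level, he]
  exact ⟨h1.image (fun a _ b _ hab => by rw [← co_co a, ← co_co b, hab]), h2.image _⟩

/-- a number smaller than the first `m` terms has the same representations for the tail -/
lemma level_small (h0 : ∀ n, 0 < x n) (hs : Summable x) {t : ℝ} {m : ℕ}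
    (hm : ∀ k < m, t < x k) (ht : t ∈ levelSet (sh m x) Cardinal.aleph0) :
    t ∈ levelSet x Cardinal.aleph0 := by
  obtain ⟨h1, h2⟩ := mem_level.1 ht
  have hn : ∀ n, 0 ≤ x n := fun n => (h0 n).le
  have he : K x t = pre m (fun _ => false) '' (K (sh m x) t) := by
    ext η
    constructor
    · intro h
      have hη : subsum x η = t := h
      have hz : ∀ k < m, η k = false := by
        intro k hk
        by_contra hne
        have hne' : η k = true := by simpa using hne
        have := le_subsum hn hs η hne'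
        linarith [hm k hk]
      refine ⟨sh m η, ?_, ?_⟩
      · show subsum (sh m x) (sh m η) = t
        rw [split hn hs η m] at hη
        have : ps x η m = 0 := by
          unfold ps
          refine Finset.sum_eq_zero fun k hk => ?_
          rw [hz k (Finset.mem_range.1 hk)]
          simp
        linarith
      · exact pre_sh m _ η (fun k hk => (hz k hk).symm)
    · rintro ⟨η, hη, rfl⟩
      show subsum x _ = t
      rw [split hn hs _ m, sh_pre]
      have h3 : subsum (sh m x) η = t := hη
      have : ps x (pre m (fun _ => false) η) m = 0 := by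
        unfold ps
        refine Finset.sum_eq_zero fun k hk => ?_
        rw [pre_lt m _ _ (Finset.mem_range.1 hk)]
        simp
      rw [this, h3, zero_add]
  rw [mem_level, he]
  refine ⟨h1.image (fun a _ b _ hab => ?_), h2.image _⟩
  rw [← sh_pre m (fun _ => false) a, ← sh_pre m (fun _ => false) b, hab]

end

end Pool.Agent.Zk93.CL
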