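import Mathlib
import Pool.Agent.Zk93.CL.Basic

set_option autoImplicit false

open Set Filter Topology
open Pool.Agent.Results.MP_c42e77_an.ContinuumLevel (subsum cardFun levelSet)

namespace Pool.Agent.Zk93.CL

/-- the representations of the same number as `ε` that differ from `ε` before `n` -/
def D (x : ℕ → ℝ) (n : ℕ) (ε : ℕ → Bool) : Set (ℕ → Bool) :=
  {η | subsum x η = subsum x ε ∧ ∃ k < n, η k ≠ ε k}

/-- the sequences `ε` which are the only accumulation point of the representations of the
number `subsum x ε` -/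
def Z (x : ℕ → ℝ) : Set (ℕ → Bool) :=
  {ε | (∀ n, ∃ η : ℕ → Bool, η ≠ ε ∧ (∀ k < n, η k = ε k) ∧ subsum x η = subsum x ε) ∧
    ∀ n, (D x n ε).Finite}

section
variable {x : ℕ → ℝ}

lemma Z_inj {ε η : ℕ → Bool} (hε : ε ∈ Z x) (hη : η ∈ Z x) (h : subsum x ε = subsum x η) :
    ε = η := by
  by_contra hne
  obtain ⟨n, hn⟩ : ∃ n, ε n ≠ η n := by
    by_contra hc
    push Not at hc
    exact hne (funext hc)
  apply Set.not_infinite.2 (hε.2 (n + 1))
  -- infinitely many representations which agree with `η` up to `n`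
  have hinf : {θ : ℕ → Bool | (∀ k < n + 1, θ k = η k) ∧ subsum x θ = subsum x η}.Infinite := by
    intro hfin
    -- choose `m` so large that all other elements of the finite set differ from `η` before `m`
    obtain ⟨m, hm⟩ : ∃ m, ∀ θ ∈ {θ : ℕ → Bool | (∀ k < n + 1, θ k = η k) ∧ subsum x θ = subsum x η},
        θ ≠ η → ∃ k < m, θ k ≠ η k := by
      have hchoose : ∀ θ : ℕ → Bool, ∃ m, θ ≠ η → ∃ k < m, θ k ≠ η k := by
        intro θ
        by_cases hθ : θ = η
        · exact ⟨0, fun h => absurd hθ h⟩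
        · obtain ⟨k, hk⟩ : ∃ k, θ k ≠ η k := by
            by_contra hc
            push Not at hc
            exact hθ (funext hc)
          exact ⟨k + 1, fun _ => ⟨k, by omega, hk⟩⟩
      choose f hf using hchoose
      refine ⟨hfin.toFinset.sup f, fun θ hθ hne => ?_⟩
      obtain ⟨k, hk, hk2⟩ := hf θ hne
      exact ⟨k, lt_of_lt_of_le hk (Finset.le_sup (f := f) (hfin.mem_toFinset.2 hθ)), hk2⟩
    obtain ⟨θ, h1, h2, h3⟩ := hη.1 (max m (n + 1))
    obtain ⟨k, hk, hk2⟩ := hm θ ⟨fun k hk => h2 k (lt_of_lt_of_le hk (le_max_right _ _)), h3⟩ h1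
    exact hk2 (h2 k (lt_of_lt_of_le hk (le_max_left _ _)))
  refine hinf.mono ?_
  rintro θ ⟨h1, h2⟩
  refine ⟨by rw [h2, h], n, by omega, ?_⟩
  rw [h1 n (by omega)]
  exact hn.symm

lemma Z_level {ε : ℕ → Bool} (hε : ε ∈ Z x) : subsum x ε ∈ levelSet x Cardinal.aleph0 := by
  rw [mem_level]
  constructor
  · intro hfin
    obtain ⟨m, hm⟩ : ∃ m, ∀ θ ∈ K x (subsum x ε), θ ≠ ε → ∃ k < m, θ k ≠ ε k := by
      have hchoose : ∀ θ : ℕ → Bool, ∃ m, θ ≠ ε → ∃ k < m, θ k ≠ ε k := by
        intro θ
        by_cases hθ : θ = ε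
        · exact ⟨0, fun h => absurd hθ h⟩
        · obtain ⟨k, hk⟩ : ∃ k, θ k ≠ ε k := by
            by_contra hc
            push Not at hc
            exact hθ (funext hc)
          exact ⟨k + 1, fun _ => ⟨k, by omega, hk⟩⟩
      choose f hf using hchoose
      refine ⟨hfin.toFinset.sup f, fun θ hθ hne => ?_⟩
      obtain ⟨k, hk, hk2⟩ := hf θ hne
      exact ⟨k, lt_of_lt_of_le hk (Finset.le_sup (f := f) (hfin.mem_toFinset.2 hθ)), hk2⟩
    obtain ⟨θ, h1, h2, h3⟩ := hε.1 m
    obtain ⟨k, hk, hk2⟩ := hm θ h3 h1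
    exact hk2 (h2 k hk)
  · refine Set.Countable.mono (s₂ := {ε} ∪ ⋃ n, D x n ε) ?_ ?_
    · intro θ hθ
      by_cases h : θ = ε
      · exact Or.inl h
      · right
        obtain ⟨k, hk⟩ : ∃ k, θ k ≠ ε k := by
          by_contra hc
          push Not at hc
          exact h (funext hc)
        exact mem_iUnion.2 ⟨k + 1, hθ, k, by omega, hk⟩
    · exact (Set.countable_singleton _).union (Set.countable_iUnion fun n => (hε.2 n).countable)

/-- projections of closed sets -/
lemma proj_closed {Y : Type} [TopologicalSpace Y] [CompactSpace Y]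
    {P : (ℕ → Bool) → Y → Prop} (hP : IsClosed {p : (ℕ → Bool) × Y | P p.1 p.2}) :
    IsClosed {ε : ℕ → Bool | ∃ y, P ε y} := by
  have h1 := isClosedMap_fst_of_compactSpace (X := ℕ → Bool) (Y := Y) _ hP
  convert h1 using 1
  ext ε
  constructor
  · rintro ⟨y, hy⟩
    exact ⟨(ε, y), hy, rfl⟩
  · rintro ⟨⟨a, b⟩, hp, rfl⟩
    exact ⟨b, hp⟩

lemma closed_ne {Y : Type} [TopologicalSpace Y] {f g : Y → Bool} (hf : Continuous f)
    (hg : Continuous g) : IsClosed {y | f y ≠ g y} :=
  (isClosed_discrete {q : Bool × Bool | q.1 ≠ q.2}).preimage (hf.prodMk hg)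

lemma closed_ex {Y : Type} [TopologicalSpace Y] {f g : ℕ → Y → Bool} (hf : ∀ k, Continuous (f k))
    (hg : ∀ k, Continuous (g k)) (n : ℕ) : IsClosed {y | ∃ k < n, f k y ≠ g k y} := by
  have : {y | ∃ k < n, f k y ≠ g k y} = ⋃ k ∈ Finset.range n, {y | f k y ≠ g k y} := by
    ext y
    simp
  rw [this]
  exact isClosed_biUnion_finset fun k _ => closed_ne (hf k) (hg k)

lemma Z_borel (h0 : ∀ n, 0 < x n) (hs : Summable x) : MeasurableSet (Z x) := by
  have hc := cont h0 hs
  have e1 : Z x = (⋂ n : ℕ, ⋃ m : ℕ, {ε : ℕ → Bool | n ≤ m ∧ ∃ η : ℕ → Bool, (∀ k < m, η k = ε k) ∧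
      η m ≠ ε m ∧ subsum x η = subsum x ε}) ∩
      ⋂ n : ℕ, ⋃ j : ℕ, (⋃ m : ℕ, {ε : ℕ → Bool | ∃ g : Fin (j + 1) → ℕ → Bool,
        (∀ a b, a ≠ b → ∃ l < m, g a l ≠ g b l) ∧
        ∀ a, subsum x (g a) = subsum x ε ∧ ∃ k < n, g a k ≠ ε k})ᶜ := by
    ext ε
    unfold Z
    rw [mem_inter_iff, Set.mem_ofPred_eq]
    refine and_congr ?_ ?_
    · rw [mem_iInter]
      refine forall_congr' fun n => ?_
      rw [mem_iUnion]
      constructor
      · rintro ⟨η, h1, h2, h3⟩
        have hex : ∃ m, η m ≠ ε m := by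
          by_contra hcc
          push Not at hcc
          exact h1 (funext hcc)
        classical
        refine ⟨Nat.find hex, ?_, η, ?_, Nat.find_spec hex, h3⟩
        · by_contra hlt
          push Not at hlt
          exact Nat.find_spec hex (h2 _ hlt)
        · intro k hk
          by_contra hne
          exact absurd (Nat.find_min' hex hne) (by omega)
      · rintro ⟨m, h1, η, h2, h3, h4⟩
        exact ⟨η, fun h => h3 (by rw [h]), fun k hk => h2 k (by omega), h4⟩
    · rw [mem_iInter]
      refine forall_congr' fun n => ?_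
      rw [mem_iUnion]
      constructor
      · intro hfin
        refine ⟨hfin.toFinset.card, ?_⟩
        rw [mem_compl_iff, mem_iUnion]
        rintro ⟨m, g, h1, h2⟩
        have hinj : Function.Injective g := by
          intro a b hab
          by_contra hne
          obtain ⟨l, -, hl⟩ := h1 a b hne
          exact hl (by rw [hab])
        classical
        have hsub : (Finset.univ.image g) ⊆ hfin.toFinset := by
          intro θ hθ
          obtain ⟨a, -, rfl⟩ := Finset.mem_image.1 hθ
          exact hfin.mem_toFinset.2 (h2 a)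
        have := Finset.card_le_card hsub
        rw [Finset.card_image_of_injective _ hinj, Finset.card_univ, Fintype.card_fin] at this
        omega
      · rintro ⟨j, hj⟩
        by_contra hinf
        apply hj
        have hinf' : (D x n ε).Infinite := hinf
        have := hinf'.to_subtype
        let e := Infinite.natEmbedding (D x n ε)
        let g : Fin (j + 1) → ℕ → Bool := fun a => (e a.1).1
        have hginj : ∀ a b, a ≠ b → g a ≠ g b := by
          intro a b hab h
          apply hab
          have := e.injective (Subtype.ext h)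
          exact Fin.ext this
        have hch : ∀ a b : Fin (j + 1), ∃ l, a ≠ b → g a l ≠ g b l := by
          intro a b
          by_cases hab : a = b
          · exact ⟨0, fun h => absurd hab h⟩
          · obtain ⟨l, hl⟩ : ∃ l, g a l ≠ g b l := by
              by_contra hcc
              push Not at hcc
              exact hginj a b hab (funext hcc)
            exact ⟨l, fun _ => hl⟩
        choose L hL using hch
        refine mem_iUnion.2 ⟨(Finset.univ.sup fun p : Fin (j + 1) × Fin (j + 1) => L p.1 p.2) + 1,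
          g, ?_, fun a => (e a.1).2⟩
        intro a b hab
        refine ⟨L a b, ?_, hL a b hab⟩
        have := Finset.le_sup (f := fun p : Fin (j + 1) × Fin (j + 1) => L p.1 p.2)
          (Finset.mem_univ (a, b))
        exact Nat.lt_succ_of_le this
  rw [e1]
  refine MeasurableSet.inter ?_ ?_
  · refine MeasurableSet.iInter fun n => MeasurableSet.iUnion fun m => ?_
    refine IsClosed.measurableSet ?_
    by_cases hnm : n ≤ m
    · simp only [hnm, true_and]
      apply proj_closed
      have h2 : {p : (ℕ → Bool) × (ℕ → Bool) | (∀ k < m, p.2 k = p.1 k) ∧ p.2 m ≠ p.1 m ∧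
          subsum x p.2 = subsum x p.1} = (⋂ k : ℕ, ⋂ _ : k < m, {p | p.2 k = p.1 k}) ∩
          ({p | p.2 m ≠ p.1 m} ∩ {p | subsum x p.2 = subsum x p.1}) := by
        ext p
        simp
      rw [h2]
      refine IsClosed.inter ?_ (IsClosed.inter ?_ ?_)
      · exact isClosed_iInter fun k => isClosed_iInter fun _ =>
          isClosed_eq (by fun_prop) (by fun_prop)
      · exact closed_ne (by fun_prop) (by fun_prop)
      · exact isClosed_eq (hc.comp continuous_snd) (hc.comp continuous_fst)
    · simp [hnm]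
  · refine MeasurableSet.iInter fun n => MeasurableSet.iUnion fun j => ?_
    refine MeasurableSet.compl (MeasurableSet.iUnion fun m => ?_)
    refine IsClosed.measurableSet ?_
    apply proj_closed
    have h2 : {p : (ℕ → Bool) × (Fin (j + 1) → ℕ → Bool) |
        (∀ a b, a ≠ b → ∃ l < m, p.2 a l ≠ p.2 b l) ∧
        ∀ a, subsum x (p.2 a) = subsum x p.1 ∧ ∃ k < n, p.2 a k ≠ p.1 k} =
        (⋂ a, ⋂ b, ⋂ _ : a ≠ b, {p | ∃ l < m, p.2 a l ≠ p.2 b l}) ∩
        (⋂ a, ({p | subsum x (p.2 a) = subsum x p.1} ∩ {p | ∃ k < n, p.2 a k ≠ p.1 k})) := by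
      ext p
      simp
    rw [h2]
    refine IsClosed.inter ?_ ?_
    · exact isClosed_iInter fun a => isClosed_iInter fun b => isClosed_iInter fun _ =>
        closed_ex (f := fun l (p : (ℕ → Bool) × (Fin (j + 1) → ℕ → Bool)) => p.2 a l)
          (g := fun l p => p.2 b l)
          (fun l => by fun_prop) (fun l => by fun_prop) m
    · refine isClosed_iInter fun a => IsClosed.inter ?_ ?_
      · exact isClosed_eq (hc.comp ((continuous_apply a).comp continuous_snd))
          (hc.comp continuous_fst)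
      · exact closed_ex (f := fun l (p : (ℕ → Bool) × (Fin (j + 1) → ℕ → Bool)) => p.2 a l)
          (g := fun l p => p.1 l)
          (fun l => by fun_prop) (fun l => by fun_prop) n

/-- an uncountable Borel set of 0-1 sequences contains a copy of the Cantor space -/
lemma exists_cantor {s : Set (ℕ → Bool)} (hs : MeasurableSet s) (hu : ¬ s.Countable) :
    ∃ g : (ℕ → Bool) → (ℕ → Bool), Continuous g ∧ Function.Injective g ∧ ∀ β, g β ∈ s := by
  have : PolishSpace (ℕ → Bool) := {}
  obtain ⟨t', ht', hp, hcl, -⟩ := hs.isClopenable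
  obtain ⟨f, hf, hfc, hfi⟩ := @IsClosed.exists_nat_bool_injection_of_not_countable (ℕ → Bool) t' hp
    s hcl hu
  exact ⟨f, continuous_le_rng ht' hfc, hfi, fun β => hf ⟨β, rfl⟩⟩

end

end Pool.Agent.Zk93.CL
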