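import Mathlib
import Pool.Agent.Zk93.CL.Borel

set_option autoImplicit false

open Set Filter Topology
open Pool.Agent.Results.MP_c42e77_an.ContinuumLevel (subsum cardFun levelSet)

namespace Pool.Agent.Zk93.CL

lemma cyl {ε : ℕ → Bool} {U : Set (ℕ → Bool)} (hU : U ∈ 𝓝 ε) :
    ∃ n, ∀ η : ℕ → Bool, (∀ k < n, η k = ε k) → η ∈ U := by
  rw [nhds_pi, Filter.mem_pi] at hU
  obtain ⟨I, hI, t, ht, hsub⟩ := hU
  refine ⟨hI.toFinset.sup id + 1, fun η hη => hsub fun i hi => ?_⟩
  have h1 : i ≤ hI.toFinset.sup id := Finset.le_sup (f := id) (hI.mem_toFinset.2 hi)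
  rw [hη i (Nat.lt_succ_of_le h1)]
  exact mem_of_mem_nhds (ht i)

lemma cyl_mem (ε : ℕ → Bool) (n : ℕ) : {η : ℕ → Bool | ∀ k < n, η k = ε k} ∈ 𝓝 ε := by
  have : {η : ℕ → Bool | ∀ k < n, η k = ε k} = ⋂ k ∈ Finset.range n, {η | η k = ε k} := by
    ext η; simp
  rw [this, Filter.biInter_finset_mem]
  intro k _
  have hc : Continuous (fun η : ℕ → Bool => η k) := continuous_apply k
  have h1 : IsOpen {η : ℕ → Bool | η k = ε k} := (isOpen_discrete {ε k}).preimage hc
  exact h1.mem_nhds rfl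

/-- a nonempty countable compact set of sequences has an isolated point -/
lemma exists_isolated {A : Set (ℕ → Bool)} (hA : IsClosed A) (hne : A.Nonempty)
    (hc : A.Countable) : ∃ ε ∈ A, ∃ n, ∀ η ∈ A, (∀ k < n, η k = ε k) → η = ε := by
  by_contra hcon
  push Not at hcon
  have hperf : Perfect A := by
    refine ⟨hA, fun ε hε => ?_⟩
    rw [accPt_iff_nhds]
    intro U hU
    obtain ⟨n, hn⟩ := cyl hU
    obtain ⟨η, h1, h2, h3⟩ := hcon ε hε n
    exact ⟨η, ⟨hn η h2, h1⟩, h3⟩
  have : PolishSpace (ℕ → Bool) := {}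
  let _ := TopologicalSpace.upgradeIsCompletelyMetrizable (ℕ → Bool)
  obtain ⟨f, hf, -, hfi⟩ := hperf.exists_nat_bool_injection hne
  have h1 : (Set.range f).Countable := hc.mono hf
  have h2 : (Set.univ : Set (ℕ → Bool)).Countable := by
    rw [← Set.image_univ] at h1
    exact Set.countable_of_injective_of_countable_image hfi.injOn h1
  have h3 : Cardinal.mk (ℕ → Bool) ≤ Cardinal.aleph0 := by
    rw [Cardinal.mk_le_aleph0_iff]
    exact Set.countable_univ_iff.1 h2
  have h4 : Cardinal.mk (ℕ → Bool) = Cardinal.continuum := by simp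
  rw [h4] at h3
  exact absurd Cardinal.aleph0_lt_continuum (not_lt.2 h3)

section
variable {x : ℕ → ℝ}

lemma exists_Z (h0 : ∀ n, 0 < x n) (hs : Summable x) {t : ℝ}
    (ht : t ∈ levelSet x Cardinal.aleph0) :
    ∃ ε, subsum x ε = t ∧ ∃ n0, ∀ n, n0 ≤ n → sh n ε ∈ Z (sh n x) := by
  obtain ⟨hinf, hcount⟩ := mem_level.1 ht
  have hn : ∀ n, 0 ≤ x n := fun n => (h0 n).le
  have hcl := K_closed h0 hs t
  let A : Set (ℕ → Bool) := {ε | AccPt ε (𝓟 (K x t))}
  have hAK : A ⊆ K x t := (isClosed_iff_derivedSet_subset _).1 hcl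
  have hAcl : IsClosed A := by
    rw [← isOpen_compl_iff, isOpen_iff_mem_nhds]
    intro ε hε
    have h1 : ¬ AccPt ε (𝓟 (K x t)) := hε
    rw [accPt_iff_nhds] at h1
    push Not at h1
    obtain ⟨U, hU, hU2⟩ := h1
    obtain ⟨V, hVU, hV, hεV⟩ := mem_nhds_iff.1 hU
    refine mem_nhds_iff.2 ⟨V, ?_, hV, hεV⟩
    intro η hη hηA
    have hηA' : AccPt η (𝓟 (K x t)) := hηA
    rw [accPt_iff_nhds] at hηA'
    by_cases hne : η = ε
    · obtain ⟨y, hy1, hy2⟩ := hηA' V (hV.mem_nhds hη)
      exact hy2 ((hU2 y ⟨hVU hy1.1, hy1.2⟩).trans hne.symm)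
    · have h3 : V ∩ {ε}ᶜ ∈ 𝓝 η := by
        refine Filter.inter_mem (hV.mem_nhds hη) ?_
        exact isOpen_compl_singleton.mem_nhds hne
      obtain ⟨y, hy1, -⟩ := hηA' _ h3
      exact hy1.1.2 (hU2 y ⟨hVU hy1.1.1, hy1.2⟩)
  have hAne : A.Nonempty := by
    obtain ⟨ε, -, hε⟩ := hinf.exists_accPt_of_subset_isCompact hcl.isCompact Subset.rfl
    exact ⟨ε, hε⟩
  obtain ⟨ε, hεA, n0, hn0⟩ := exists_isolated hAcl hAne (hcount.mono hAK)
  have hεt : subsum x ε = t := hAK hεA
  refine ⟨ε, hεt, n0, fun n hnn => ⟨?_, ?_⟩⟩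
  · intro m
    have h1 : AccPt ε (𝓟 (K x t)) := hεA
    rw [accPt_iff_nhds] at h1
    obtain ⟨η, ⟨h2, h3⟩, h4⟩ := h1 _ (cyl_mem ε (n + m))
    have hηt : subsum x η = t := h3
    refine ⟨sh n η, ?_, ?_, ?_⟩
    · intro h
      apply h4
      rw [← pre_sh n ε η (fun k hk => (h2 k (by omega)).symm), h]
      exact pre_sh n ε ε (fun k _ => rfl)
    · intro k hk
      exact h2 (n + k) (by omega)
    · have e1 := split hn hs η n
      have e2 := split hn hs ε n
      have e3 : ps x η n = ps x ε n := by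
        unfold ps
        refine Finset.sum_congr rfl fun k hk => ?_
        rw [h2 k (by have := Finset.mem_range.1 hk; omega)]
      rw [hηt] at e1
      rw [hεt] at e2
      linarith
  · intro m
    by_contra hinf2
    have hinf2' : (D (sh n x) m (sh n ε)).Infinite := hinf2
    let S : Set (ℕ → Bool) := pre n ε '' D (sh n x) m (sh n ε)
    have hSinf : S.Infinite := hinf2'.image (fun a _ b _ hab => by
      rw [← sh_pre n ε a, ← sh_pre n ε b, hab])
    let C : Set (ℕ → Bool) := (K x t ∩ ⋂ k : ℕ, ⋂ _ : k < n, {η | η k = ε k}) ∩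
      {η | ∃ k < n + m, η k ≠ ε k}
    have hCcl : IsClosed C := by
      refine IsClosed.inter (hcl.inter ?_) ?_
      · exact isClosed_iInter fun k => isClosed_iInter fun _ =>
          isClosed_eq (continuous_apply k) continuous_const
      · exact closed_ex (f := fun k (η : ℕ → Bool) => η k) (g := fun k _ => ε k)
          (fun k => continuous_apply k) (fun k => continuous_const) _
    have hSC : S ⊆ C := by
      rintro _ ⟨η, ⟨h1, k, hk, hk2⟩, rfl⟩
      refine ⟨⟨?_, ?_⟩, ?_⟩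
      · show subsum x (pre n ε η) = t
        rw [split hn hs _ n, sh_pre, h1, ← hεt, split hn hs ε n]
        congr 1
        unfold ps
        refine Finset.sum_congr rfl fun k hk => ?_
        rw [pre_lt n ε η (Finset.mem_range.1 hk)]
      · simp only [mem_iInter]
        intro j hj
        exact pre_lt n ε η hj
      · refine ⟨n + k, by omega, ?_⟩
        have : pre n ε η (n + k) = η k := by simp [pre]
        rw [this]
        exact hk2
    obtain ⟨θ, hθC, hθ⟩ := hSinf.exists_accPt_of_subset_isCompact hCcl.isCompact hSC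
    have hθA : θ ∈ A := by
      show AccPt θ (𝓟 (K x t))
      refine hθ.mono (Filter.principal_mono.2 ?_)
      exact hSC.trans (fun η hη => hη.1.1)
    have h5 : θ = ε := by
      apply hn0 θ hθA
      intro k hk
      have := hθC.1.2
      simp only [mem_iInter] at this
      exact this k (by omega)
    obtain ⟨k, -, hk⟩ := hθC.2
    exact hk (by rw [h5])

end

end Pool.Agent.Zk93.CL
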