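import Mathlib
import Pool.Agent.Zk93.CL.Iso

set_option autoImplicit false

open Set Filter Topology
open Pool.Agent.Results.MP_c42e77_an.ContinuumLevel (subsum cardFun levelSet)

namespace Pool.Agent.Zk93.CL

/-- the reciprocal of the golden ratio -/
noncomputable def q : ℝ := Real.goldenRatio⁻¹

lemma q_pos : 0 < q := inv_pos.2 Real.goldenRatio_pos

lemma q_sq : q ^ 2 + q = 1 := by
  have h1 := Real.goldenRatio_sq
  have h2 := Real.goldenRatio_pos
  unfold q
  generalize Real.goldenRatio = p at *
  field_simp
  linarith

lemma q_lt : q < 1 := by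
  have h1 := q_sq
  have h2 := q_pos
  nlinarith

/-- the powers of `q` -/
noncomputable def gx : ℕ → ℝ := fun n => q ^ (n + 1)

lemma gx_pos (n : ℕ) : 0 < gx n := pow_pos q_pos _

lemma gx_nonneg (n : ℕ) : 0 ≤ gx n := (gx_pos n).le

lemma gx_summable : Summable gx := by
  have := (summable_geometric_of_lt_one q_pos.le q_lt).mul_left q
  refine this.congr fun n => ?_
  unfold gx
  rw [pow_succ]; ring

lemma gx_total : ∑' n, gx n = 1 / q := by
  have h1 : ∑' n, gx n = q * (1 - q)⁻¹ := by
    rw [← tsum_geometric_of_lt_one q_pos.le q_lt, ← tsum_mul_left]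
    refine tsum_congr fun n => ?_
    unfold gx
    rw [pow_succ]; ring
  have h2 : 1 - q = q ^ 2 := by linarith [q_sq]
  rw [h1, h2]
  have := q_pos
  field_simp

lemma sh_gx (m : ℕ) : sh m gx = fun k => q ^ m * gx k := by
  funext k
  unfold sh gx
  rw [← pow_add]
  congr 1

lemma subsum_sh (m : ℕ) (η : ℕ → Bool) : subsum (sh m gx) η = q ^ m * subsum gx η := by
  unfold subsum
  rw [← tsum_mul_left]
  refine tsum_congr fun n => ?_
  rw [sh_gx]
  split_ifs
  · rfl
  · simp

lemma step (ε : ℕ → Bool) : subsum gx ε = (if ε 0 = true then q else 0) +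
    q * subsum gx (sh 1 ε) := by
  rw [split gx_nonneg gx_summable ε 1, subsum_sh, pow_one]
  congr 1
  simp [ps, gx]

lemma kak_gx {v : ℝ} (h0 : 0 ≤ v) (h1 : v ≤ 1 / q) : ∃ ε : ℕ → Bool, subsum gx ε = v := by
  apply kak gx_nonneg gx_summable _ h0 (by rw [gx_total]; exact h1)
  intro n
  rw [sh_gx]
  rw [tsum_mul_left, gx_total]
  unfold gx
  have h2 := q_pos
  have h3 := q_lt
  have h4 : 1 ≤ 1 / q := by
    rw [le_div_iff₀ h2]; linarith
  have h5 : 0 < q ^ (n + 1) := pow_pos h2 _
  nlinarith

/-- `ℤ + ℤ q` -/
def G : Set ℝ := {y | ∃ a b : ℤ, y = a + b * q}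

lemma G_countable : G.Countable := by
  have : G = Set.range (fun p : ℤ × ℤ => (p.1 : ℝ) + p.2 * q) := by
    ext y
    constructor
    · rintro ⟨a, b, h⟩
      exact ⟨(a, b), h.symm⟩
    · rintro ⟨⟨a, b⟩, h⟩
      exact ⟨a, b, h.symm⟩
  rw [this]
  exact Set.countable_range _

lemma G_step {v : ℝ} (h : v ∈ G) (d : Bool) : (if d = true then q else 0) + q * v ∈ G := by
  obtain ⟨a, b, rfl⟩ := h
  have h1 := q_sq
  have e : q * ((a : ℝ) + b * q) = b + (a - b) * q := by
    have : q ^ 2 = 1 - q := by linarith
    calc q * ((a : ℝ) + b * q) = a * q + b * q ^ 2 := by ring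
      _ = _ := by rw [this]; ring
  rw [e]
  cases d
  · refine ⟨b, a - b, ?_⟩
    push_cast
    simp
  · refine ⟨b, a - b + 1, ?_⟩
    push_cast
    simp
    ring

lemma G_tail {η : ℕ → Bool} (h : subsum gx η ∉ G) (m : ℕ) : subsum gx (sh m η) ∉ G := by
  induction m with
  | zero =>
      have : sh 0 η = η := by funext k; simp [sh]
      rwa [this]
  | succ m ih =>
      intro hG
      apply ih
      rw [step (sh m η), sh_sh]
      exact G_step hG _

lemma pre_one (d : Bool) (η : ℕ → Bool) : subsum gx (pre 1 (fun _ => d) η) =
    (if d = true then q else 0) + q * subsum gx η := by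
  rw [step, sh_pre]
  simp [pre]

/-- a number outside `ℤ + ℤ q` never has exactly one representation -/
lemma two_reps {η : ℕ → Bool} (h : subsum gx η ∉ G) :
    ∃ η' : ℕ → Bool, η' ≠ η ∧ subsum gx η' = subsum gx η := by
  by_contra hcon
  push Not at hcon
  have hU : ∀ m, ∀ θ : ℕ → Bool, subsum gx θ = subsum gx (sh m η) → θ = sh m η := by
    intro m θ hθ
    by_contra hne
    have h1 : pre m η θ ≠ η := by
      intro h2
      apply hne
      rw [← sh_pre m η θ, h2]
    apply hcon _ h1
    rw [split gx_nonneg gx_summable _ m, sh_pre, subsum_sh, hθ, ← subsum_sh,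
      split gx_nonneg gx_summable η m]
    congr 1
    unfold ps
    refine Finset.sum_congr rfl fun k hk => ?_
    rw [pre_lt m η θ (Finset.mem_range.1 hk)]
  have hq := q_pos
  have hq1 := q_lt
  have hq2 := q_sq
  have hbound : ∀ θ : ℕ → Bool, 0 ≤ subsum gx θ ∧ q * subsum gx θ ≤ 1 := by
    intro θ
    refine ⟨subsum_nonneg gx_nonneg θ, ?_⟩
    have h1 := subsum_le gx_nonneg gx_summable θ
    rw [gx_total, le_div_iff₀ hq] at h1
    linarith
  -- the digit after a `false` is `false`
  have hstep : ∀ m, η m = false → η (m + 1) = false := by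
    intro m hm
    have e0 : sh m η 0 = false := by simpa [sh] using hm
    have e1 : subsum gx (sh m η) = q * subsum gx (sh (m + 1) η) := by
      rw [step (sh m η), e0, sh_sh]
      simp
    have h2 : subsum gx (sh m η) ≤ 1 := by rw [e1]; exact (hbound _).2
    have h3 : subsum gx (sh m η) ≤ q := by
      by_contra hlt
      push Not at hlt
      obtain ⟨θ, hθ⟩ := kak_gx (v := (subsum gx (sh m η) - q) / q)
        (div_nonneg (by linarith) hq.le)
        (by rw [div_le_div_iff_of_pos_right hq]; linarith)
      have h4 := hU m (pre 1 (fun _ => true) θ) (by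
        rw [pre_one, hθ]
        field_simp
        simp)
      have h5 : pre 1 (fun _ => true) θ 0 = true := by simp [pre]
      rw [h4, e0] at h5
      exact Bool.noConfusion h5
    have h4 : subsum gx (sh (m + 1) η) ≤ 1 := by
      rw [e1] at h3
      nlinarith
    by_contra hne
    have hne' : η (m + 1) = true := by simpa using hne
    obtain ⟨θ, hθ⟩ := kak_gx (v := subsum gx (sh (m + 1) η) / q)
      (div_nonneg (hbound _).1 hq.le) (by rw [div_le_div_iff_of_pos_right hq]; exact h4)
    have h5 := hU (m + 1) (pre 1 (fun _ => false) θ) (by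
      rw [pre_one, hθ]
      field_simp
      simp)
    have h6 : pre 1 (fun _ => false) θ 0 = false := by simp [pre]
    rw [h5] at h6
    have h7 : sh (m + 1) η 0 = true := by simpa [sh] using hne'
    rw [h6] at h7
    exact Bool.noConfusion h7
  by_cases hall : ∀ m, η m = true
  · apply h
    have h1 : subsum gx η = ∑' n, gx n := by
      unfold subsum
      exact tsum_congr fun n => by rw [if_pos (hall n)]
    rw [h1, gx_total]
    refine ⟨1, 1, ?_⟩
    push_cast
    rw [div_eq_iff hq.ne']
    linarith
  · push Not at hall
    obtain ⟨m, hm⟩ := hall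
    have hm' : η m = false := by simpa using hm
    have h1 : ∀ k, η (m + k) = false := by
      intro k
      induction k with
      | zero => exact hm'
      | succ k ih => exact hstep _ ih
    apply G_tail h m
    have h2 : subsum gx (sh m η) = 0 := by
      unfold subsum
      rw [← tsum_zero (α := ℝ) (β := ℕ)]
      refine tsum_congr fun n => ?_
      have : sh m η n = false := h1 n
      rw [this]; simp
    rw [h2]
    exact ⟨0, 0, by simp⟩

lemma level_sub : levelSet gx Cardinal.aleph0 ⊆ G := by
  intro t ht
  by_contra hG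
  obtain ⟨h1, h2⟩ := mem_level.1 ht
  obtain ⟨ε, hε, n, hn⟩ := exists_isolated (K_closed gx_pos gx_summable t) h1.nonempty h2
  have hεt : subsum gx ε = t := hε
  have h3 : subsum gx (sh n ε) ∉ G := G_tail (by rw [hεt]; exact hG) n
  obtain ⟨η, h4, h5⟩ := two_reps h3
  have h6 : pre n ε η = ε := by
    apply hn
    · show subsum gx _ = t
      rw [split gx_nonneg gx_summable _ n, sh_pre, subsum_sh, h5, ← subsum_sh, ← hεt,
        split gx_nonneg gx_summable ε n]
      congr 1
      unfold ps
      refine Finset.sum_congr rfl fun k hk => ?_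
      rw [pre_lt n ε η (Finset.mem_range.1 hk)]
    · intro k hk
      exact pre_lt n ε η hk
  apply h4
  rw [← sh_pre n ε η, h6]

lemma level_countable : (levelSet gx Cardinal.aleph0).Countable := G_countable.mono level_sub

/-- the two digits 1, 0 -/
def w10 : ℕ → Bool := fun n => decide (n = 0)

lemma pre_two (η : ℕ → Bool) : subsum gx (pre 2 w10 η) = q + q ^ 2 * subsum gx η := by
  rw [split gx_nonneg gx_summable _ 2, sh_pre, subsum_sh]
  congr 1
  simp [ps, Finset.sum_range_succ, pre, w10, gx]

/-- `k` times the digits 1, 0, then `η` -/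
def P : ℕ → (ℕ → Bool) → ℕ → Bool
  | 0, η => η
  | k + 1, η => pre 2 w10 (P k η)

lemma P_succ (k : ℕ) (η : ℕ → Bool) : P (k + 1) η = P k (pre 2 w10 η) := by
  induction k with
  | zero => rfl
  | succ k ih =>
      show pre 2 w10 (P (k + 1) η) = pre 2 w10 (P k (pre 2 w10 η))
      rw [ih]

lemma P_lt (k : ℕ) (η : ℕ → Bool) (n : ℕ) (hn : n < 2 * k) : P k η n = decide (n % 2 = 0) := by
  induction k generalizing n with
  | zero => omega
  | succ k ih =>
      show pre 2 w10 (P k η) n = _
      by_cases h : n < 2
      · rw [pre_lt 2 _ _ h]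
        unfold w10
        rcases Nat.lt_succ_iff_lt_or_eq.1 h with h1 | h1
        · have : n = 0 := by omega
          subst this; simp
        · subst h1; simp
      · have : pre 2 w10 (P k η) n = P k η (n - 2) := by simp [pre, h]
        rw [this, ih (n - 2) (by omega)]
        congr 1
        apply propext
        omega

lemma P_add (k : ℕ) (η : ℕ → Bool) (n : ℕ) : P k η (2 * k + n) = η n := by
  induction k with
  | zero => simp [P]
  | succ k ih =>
      show pre 2 w10 (P k η) (2 * (k + 1) + n) = _
      have : pre 2 w10 (P k η) (2 * (k + 1) + n) = P k η (2 * k + n) := by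
        unfold pre
        rw [if_neg (by omega)]
        congr 1
        omega
      rw [this, ih]

lemma P_sum (k : ℕ) {η : ℕ → Bool} (h : subsum gx η = 1) : subsum gx (P k η) = 1 := by
  induction k with
  | zero => exact h
  | succ k ih =>
      show subsum gx (pre 2 w10 (P k η)) = 1
      rw [pre_two, ih]
      linarith [q_sq]

/-- 0 1 1 1 1 ... -/
def sa : ℕ → Bool := fun n => decide (0 < n)

/-- 1 1 0 0 0 ... -/
def sb : ℕ → Bool := fun n => decide (n < 2)

lemma sb_sum : subsum gx sb = 1 := by
  rw [split gx_nonneg gx_summable _ 2]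
  have h1 : subsum (sh 2 gx) (sh 2 sb) = 0 := by
    unfold subsum
    rw [← tsum_zero (α := ℝ) (β := ℕ)]
    refine tsum_congr fun n => ?_
    have : sh 2 sb n = false := by
      simp only [sh, sb, decide_eq_false_iff_not]
      omega
    rw [this]; simp
  rw [h1]
  simp [ps, Finset.sum_range_succ, sb, gx]
  linarith [q_sq]

lemma cases_one {ε : ℕ → Bool} (h : subsum gx ε = 1) :
    ε = sa ∨ ε = sb ∨ ∃ η, subsum gx η = 1 ∧ ε = pre 2 w10 η := by
  have hq := q_pos
  have hq1 := q_lt
  have hq2 := q_sq
  have e1 := step ε
  rw [h] at e1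
  by_cases h0 : ε 0 = true
  · rw [if_pos h0] at e1
    have e2 := step (sh 1 ε)
    rw [sh_sh] at e2
    by_cases h1 : ε 1 = true
    · right; left
      have h1' : sh 1 ε 0 = true := by simpa [sh] using h1
      rw [if_pos h1'] at e2
      have e3 : subsum gx (sh (1 + 1) ε) = 0 := by
        have : q * (q * subsum gx (sh (1 + 1) ε)) = 0 := by
          rw [e2] at e1
          linarith [e1, hq2, sq q]
        have h4 : q * subsum gx (sh (1 + 1) ε) = 0 := by
          rcases mul_eq_zero.1 this with h | h
          · exact absurd h hq.ne'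
          · exact h
        rcases mul_eq_zero.1 h4 with h | h
        · exact absurd h hq.ne'
        · exact h
      funext n
      unfold sb
      rcases Nat.lt_or_ge n 2 with h4 | h4
      · rcases Nat.lt_succ_iff_lt_or_eq.1 h4 with h5 | h5
        · have : n = 0 := by omega
          subst this; rw [h0]; simp
        · subst h5; rw [h1]; simp
      · have h5 : ¬ ε n = true := by
          intro h6
          have h7 : sh (1 + 1) ε (n - 2) = true := by
            unfold sh
            rw [show 1 + 1 + (n - 2) = n by omega]
            exact h6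
          have := le_subsum gx_nonneg gx_summable _ h7
          rw [e3] at this
          exact absurd (gx_pos (n - 2)) (not_lt.2 this)
        have h6 : ε n = false := by simpa using h5
        rw [h6]
        simp; omega
    · right; right
      have h1' : sh 1 ε 0 = false := by
        have : ε 1 = false := by simpa using h1
        simpa [sh] using this
      rw [h1'] at e2
      simp only [Bool.false_eq_true, if_false, zero_add] at e2
      refine ⟨sh 2 ε, ?_, ?_⟩
      · have h2 : sh (1 + 1) ε = sh 2 ε := rfl
        rw [h2] at e2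
        rw [e2] at e1
        have h3 : q ^ 2 * subsum gx (sh 2 ε) = q ^ 2 := by
          linarith [e1, hq2, sq q, mul_assoc q q (subsum gx (sh 2 ε))]
        have h4 : q ^ 2 ≠ 0 := by positivity
        have := mul_left_cancel₀ h4 (h3.trans (mul_one _).symm)
        exact this
      · refine (pre_sh 2 w10 ε ?_).symm
        intro k hk
        unfold w10
        rcases Nat.lt_succ_iff_lt_or_eq.1 hk with h5 | h5
        · have : k = 0 := by omega
          subst this; rw [h0]; simp
        · subst h5
          have : ε 1 = false := by simpa using h1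
          rw [this]; simp
  · left
    rw [if_neg h0, zero_add] at e1
    have e3 : subsum gx (co (sh 1 ε)) = 0 := by
      rw [subsum_co gx_nonneg gx_summable, gx_total]
      have : subsum gx (sh 1 ε) = 1 / q := by
        rw [eq_div_iff hq.ne']
        linarith
      rw [this]; ring
    funext n
    unfold sa
    rcases Nat.eq_zero_or_pos n with h4 | h4
    · subst h4
      have : ε 0 = false := by simpa using h0
      rw [this]; simp
    · have h5 : ε n = true := by
        by_contra h6
        have h7 : co (sh 1 ε) (n - 1) = true := by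
          unfold co sh
          rw [show 1 + (n - 1) = n by omega]
          simpa using h6
        have := le_subsum gx_nonneg gx_summable _ h7
        rw [e3] at this
        exact absurd (gx_pos (n - 1)) (not_lt.2 this)
      rw [h5]
      simp; omega

lemma one_mem : (1 : ℝ) ∈ levelSet gx Cardinal.aleph0 := by
  rw [mem_level]
  constructor
  · have hinj : Function.Injective (fun k => P k sb) := by
      have key : ∀ k l, k < l → P k sb ≠ P l sb := by
        intro k l hkl h
        have h1 : P k sb (2 * k + 1) = true := by
          rw [P_add]; simp [sb]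
        have h2 : P l sb (2 * k + 1) = false := by
          rw [P_lt l sb _ (by omega)]
          simp
        rw [h, h2] at h1
        exact Bool.noConfusion h1
      intro k l hkl
      rcases lt_trichotomy k l with h | h | h
      · exact absurd hkl (key k l h)
      · exact h
      · exact absurd hkl.symm (key l k h)
    refine Set.infinite_of_injective_forall_mem hinj fun k => ?_
    exact P_sum k sb_sum
  · have hsub : K gx 1 ⊆ {fun n => decide (n % 2 = 0)} ∪ ⋃ k : ℕ, {P k sa, P k sb} := by
      intro ε hε
      have hind : ∀ k, (∃ j < k, ε = P j sa ∨ ε = P j sb) ∨ ∃ η, subsum gx η = 1 ∧ ε = P k η := by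
        intro k
        induction k with
        | zero => exact Or.inr ⟨ε, hε, rfl⟩
        | succ k ih =>
            rcases ih with ⟨j, hj, h⟩ | ⟨η, h1, h2⟩
            · exact Or.inl ⟨j, by omega, h⟩
            · rcases cases_one h1 with h3 | h3 | ⟨θ, h3, h4⟩
              · exact Or.inl ⟨k, by omega, Or.inl (by rw [h2, h3])⟩
              · exact Or.inl ⟨k, by omega, Or.inr (by rw [h2, h3])⟩
              · exact Or.inr ⟨θ, h3, by rw [P_succ, ← h4, h2]⟩
      by_cases hex : ∃ j, ε = P j sa ∨ ε = P j sb
      · obtain ⟨j, hj⟩ := hex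
        right
        exact mem_iUnion.2 ⟨j, by rcases hj with h | h <;> simp [h]⟩
      · left
        rw [mem_singleton_iff]
        funext n
        rcases hind (n + 1) with ⟨j, -, hj⟩ | ⟨η, -, h⟩
        · exact absurd ⟨j, hj⟩ hex
        · rw [h, P_lt _ _ _ (by omega)]
    refine Set.Countable.mono hsub ?_
    exact (Set.countable_singleton _).union (Set.countable_iUnion fun k => by
      exact (Set.toFinite _).countable)

end Pool.Agent.Zk93.CL
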