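import Mathlib
import Pool.Agent.Zk93.CL.Iso

set_option autoImplicit false

open Set Filter Topology
open Pool.Agent.Results.MP_c42e77_an.ContinuumLevel (subsum cardFun levelSet)

namespace Pool.Agent.Zk93.CL

section
variable {x : ℕ → ℝ}

lemma tail_succ (hs : Summable x) (m : ℕ) :
    ∑' k, sh m x k = x m + ∑' k, sh (m + 1) x k := by
  rw [split_tot (sh_summable hs m) 1, sh_sh]
  simp [sh]

lemma tail_anti (h0 : ∀ n, 0 ≤ x n) (hs : Summable x) {m n : ℕ} (h : m ≤ n) :
    ∑' k, sh n x k ≤ ∑' k, sh m x k := by
  obtain ⟨d, rfl⟩ := Nat.exists_eq_add_of_le h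
  rw [split_tot (sh_summable hs m) d, sh_sh]
  have : 0 ≤ ∑ k ∈ Finset.range d, sh m x k := Finset.sum_nonneg fun k _ => h0 _
  linarith

/-- strongly overlapping nonincreasing sequences: all interior numbers have uncountably many
representations -/
lemma ejk (h0 : ∀ n, 0 < x n) (hs : Summable x)
    (h2 : ∀ n, 2 * x n ≤ ∑' k, sh (n + 1) x k) {t : ℝ} (ht : 0 < t) (ht2 : t < ∑' n, x n) :
    ¬ (K x t).Countable := by
  classical
  have hn : ∀ n, 0 ≤ x n := fun n => (h0 n).le
  -- a sparse sequence of indices
  have hex : ∀ (δ : ℝ) (N : ℕ), 0 < δ → ∃ n, N < n ∧ x n ≤ δ := by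
    intro δ N hδ
    have h1 := hs.tendsto_atTop_zero.eventually (Iio_mem_nhds hδ)
    obtain ⟨n, h3, h4⟩ := (h1.and (eventually_gt_atTop N)).exists
    exact ⟨n, h4, le_of_lt h3⟩
  have hnext : ∀ a : ℕ, ∃ b, a < b ∧ x b ≤ x a / 4 := fun a => hex _ a (by have := h0 a; positivity)
  choose next hn1 hn2 using hnext
  let c : ℝ := min t (∑' n, x n - t) / 2
  have hc : 0 < c := by
    have : 0 < min t (∑' n, x n - t) := lt_min ht (by linarith)
    positivity
  obtain ⟨a0, -, ha0⟩ := hex c 0 hc
  let j : ℕ → ℕ := fun i => next^[i] a0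
  have hj0 : j 0 = a0 := rfl
  have hjs : ∀ i, j (i + 1) = next (j i) := fun i => Function.iterate_succ_apply' next i a0
  have hjm : StrictMono j := strictMono_nat_of_lt_succ fun i => by
    rw [hjs]; exact hn1 _
  have hj4 : ∀ i, x (j (i + 1)) ≤ x (j i) / 4 := fun i => by
    rw [hjs]; exact hn2 _
  have hjp : ∀ a i, x (j (a + i)) ≤ x (j a) * (1 / 4 : ℝ) ^ i := by
    intro a i
    induction i with
    | zero => simp
    | succ i ih =>
        have := hj4 (a + i)
        rw [pow_succ]
        have h3 : a + (i + 1) = a + i + 1 := by ring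
        rw [h3]
        linarith
  let z : ℕ → ℝ := fun n => if n ∈ Set.range j then x n else 0
  let y : ℕ → ℝ := fun n => if n ∈ Set.range j then 0 else x n
  have hz0 : ∀ n, 0 ≤ z n := fun n => by
    simp only [z]; split_ifs
    · exact hn n
    · exact le_refl _
  have hy0 : ∀ n, 0 ≤ y n := fun n => by
    simp only [y]; split_ifs
    · exact le_refl _
    · exact hn n
  have hzs : Summable z := Summable.of_nonneg_of_le hz0 (fun n => by
    simp only [z]; split_ifs
    · exact le_refl _
    · exact hn n) hs
  have hys : Summable y := Summable.of_nonneg_of_le hy0 (fun n => by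
    simp only [y]; split_ifs
    · exact hn n
    · exact le_refl _) hs
  have hzy : ∀ n, z n + y n = x n := fun n => by
    simp only [z, y]; split_ifs <;> ring
  have htz : ∀ m, ∑' k, sh m z k + ∑' k, sh m y k = ∑' k, sh m x k := by
    intro m
    rw [← (sh_summable hzs m).tsum_add (sh_summable hys m)]
    exact tsum_congr fun k => hzy _
  have hzt : ∀ m a, m ≤ j a → (∀ i < a, j i < m) → ∑' k, sh m z k ≤ 4 / 3 * x (j a) := by
    intro m a h1 h3
    have h4 : ∀ i, m ≤ j (a + i) := fun i => h1.trans (hjm.monotone (by omega))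
    have hg : Function.Injective (fun i => j (a + i) - m) := by
      intro i i' hii
      have hii' : j (a + i) - m = j (a + i') - m := hii
      have e1 := h4 i
      have e2 := h4 i'
      have : j (a + i) = j (a + i') := by omega
      have := hjm.injective this
      omega
    have hsup : Function.support (sh m z) ⊆ Set.range (fun i => j (a + i) - m) := by
      intro k hk
      have hk' : z (m + k) ≠ 0 := hk
      have hmem : m + k ∈ Set.range j := by
        by_contra hcc
        exact hk' (by simp only [z]; rw [if_neg hcc])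
      obtain ⟨i, hi⟩ := hmem
      have hia : a ≤ i := by
        by_contra hlt
        have := h3 i (by omega)
        omega
      refine ⟨i - a, ?_⟩
      show j (a + (i - a)) - m = k
      rw [show a + (i - a) = i by omega, hi]
      omega
    rw [← hg.tsum_eq hsup]
    have h5 : ∀ i, sh m z (j (a + i) - m) = x (j (a + i)) := by
      intro i
      have e1 : m + (j (a + i) - m) = j (a + i) := by have := h4 i; omega
      unfold sh
      rw [e1]
      simp only [z]
      rw [if_pos ⟨_, rfl⟩]
    have hgeo : Summable (fun i : ℕ => x (j a) * (1 / 4 : ℝ) ^ i) :=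
      (summable_geometric_of_lt_one (by norm_num) (by norm_num)).mul_left _
    have h6 : Summable (fun i => sh m z (j (a + i) - m)) :=
      Summable.of_nonneg_of_le (fun i => hz0 _) (fun i => by rw [h5]; exact hjp a i) hgeo
    refine (h6.tsum_le_tsum (fun i => by rw [h5]; exact hjp a i) hgeo).trans ?_
    rw [tsum_mul_left, tsum_geometric_of_lt_one (by norm_num) (by norm_num)]
    apply le_of_eq
    norm_num
    ring
  -- Kakeya's condition for `y`
  have hky : ∀ n, y n ≤ ∑' k, sh (n + 1) y k := by
    intro n
    by_cases hnJ : n ∈ Set.range j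
    · have : y n = 0 := by simp only [y]; rw [if_pos hnJ]
      rw [this]
      exact tsum_nonneg fun k => hy0 _
    · have : y n = x n := by simp only [y]; rw [if_neg hnJ]
      rw [this]
      have hexa : ∃ a, n + 1 ≤ j a := ⟨n + 1, hjm.id_le (n + 1)⟩
      have h1 := Nat.find_spec hexa
      have h3 : ∀ i < Nat.find hexa, j i < n + 1 := fun i hi => by
        have := Nat.find_min hexa hi
        omega
      have h4 := hzt (n + 1) _ h1 h3
      have h5 := htz (n + 1)
      have h6 := h2 n
      have h7 := h2 (j (Nat.find hexa))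
      have h8 := tail_succ hs (j (Nat.find hexa))
      have h9 := tail_anti hn hs h1
      have h10 := h0 n
      linarith
  have hσ : ∑' k, z k ≤ min t (∑' n, x n - t) := by
    have h1 := hzt 0 0 (Nat.zero_le _) (fun i hi => absurd hi (Nat.not_lt_zero _))
    have h3 : ∑' k, sh 0 z k = ∑' k, z k := tsum_congr fun k => by unfold sh; rw [Nat.zero_add]
    rw [h3, hj0] at h1
    have : c = min t (∑' n, x n - t) / 2 := rfl
    linarith
  have hσ1 := hσ.trans (min_le_left _ _)
  have hσ2 := hσ.trans (min_le_right _ _)
  have hxy : ∑' k, z k + ∑' k, y k = ∑' k, x k := by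
    rw [← hzs.tsum_add hys]
    exact tsum_congr fun k => hzy _
  let b : (ℕ → Bool) → ℕ → Bool := fun S n => decide (∃ i, j i = n ∧ S i = true)
  have hb1 : ∀ S, 0 ≤ subsum x (b S) := fun S => subsum_nonneg hn _
  have hb2 : ∀ S, subsum x (b S) ≤ ∑' k, z k := by
    intro S
    unfold subsum
    refine (sm hn hs (b S)).tsum_le_tsum (fun n => ?_) hzs
    by_cases hbn : b S n = true
    · rw [if_pos hbn]
      have : ∃ i, j i = n ∧ S i = true := by simpa [b] using hbn
      obtain ⟨i, hi, -⟩ := this
      simp only [z]
      rw [if_pos ⟨i, hi⟩]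
    · rw [if_neg hbn]
      exact hz0 n
  have hrep : ∀ S, ∃ ε : ℕ → Bool, subsum y ε = t - subsum x (b S) := by
    intro S
    apply kak hy0 hys hky
    · linarith [hb2 S]
    · linarith [hb1 S]
  choose ε hε using hrep
  let η : (ℕ → Bool) → ℕ → Bool := fun S n => if n ∈ Set.range j then b S n else ε S n
  have hη : ∀ S, subsum x (η S) = t := by
    intro S
    have h1 : subsum x (η S) = subsum y (ε S) + subsum x (b S) := by
      unfold subsum
      rw [← (sm hy0 hys (ε S)).tsum_add (sm hn hs (b S))]
      refine tsum_congr fun n => ?_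
      by_cases hnJ : n ∈ Set.range j
      · have e1 : η S n = b S n := by simp only [η]; rw [if_pos hnJ]
        have e2 : y n = 0 := by simp only [y]; rw [if_pos hnJ]
        rw [e1, e2]
        simp
      · have e1 : η S n = ε S n := by simp only [η]; rw [if_neg hnJ]
        have e2 : y n = x n := by simp only [y]; rw [if_neg hnJ]
        have e3 : b S n = false := by
          simp only [b, decide_eq_false_iff_not]
          rintro ⟨i, hi, -⟩
          exact hnJ ⟨i, hi⟩
        rw [e1, e2, e3]
        simp
    rw [h1, hε S]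
    ring
  have hinj : Function.Injective η := by
    intro S S' hSS
    funext i
    have h1 : ∀ S, η S (j i) = S i := by
      intro S
      have e1 : η S (j i) = b S (j i) := by simp only [η]; rw [if_pos ⟨i, rfl⟩]
      rw [e1]
      simp only [b]
      by_cases hS : S i = true
      · rw [hS]
        simp only [decide_eq_true_eq]
        exact ⟨i, rfl, hS⟩
      · have hS' : S i = false := by simpa using hS
        rw [hS']
        simp only [decide_eq_false_iff_not]
        rintro ⟨i', hi', hS2⟩
        rw [hjm.injective hi'] at hS2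
        exact hS hS2
    rw [← h1 S, ← h1 S', hSS]
  intro hcount
  have h3 : (Set.range η).Countable := hcount.mono (by
    rintro _ ⟨S, rfl⟩
    exact hη S)
  have h4 : (Set.univ : Set (ℕ → Bool)).Countable := by
    rw [← Set.image_univ] at h3
    exact Set.countable_of_injective_of_countable_image hinj.injOn h3
  have h5 : Cardinal.mk (ℕ → Bool) ≤ Cardinal.aleph0 := by
    rw [Cardinal.mk_le_aleph0_iff]
    exact Set.countable_univ_iff.1 h4
  have h6 : Cardinal.mk (ℕ → Bool) = Cardinal.continuum := by simp
  rw [h6] at h5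
  exact absurd Cardinal.aleph0_lt_continuum (not_lt.2 h5)

end

end Pool.Agent.Zk93.CL
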