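import Mathlib
import Pool.Agent.H256.CF.Sort
import Pool.Agent.Zk93.CL.Ejk

set_option autoImplicit false

open Set Filter Topology
open Pool.Agent.Results.MP_c42e77_an.ContinuumLevel (subsum cardFun levelSet)

namespace Pool.Agent.Zk93.CL

section
variable {x : ℕ → ℝ}

lemma small (h0 : ∀ n, 0 < x n) (hs : Summable x) {ε : ℕ → Bool} {n0 : ℕ}
    (hZ : ∀ n, n0 ≤ n → sh n ε ∈ Z (sh n x)) (M : ℕ) :
    ∃ m, M ≤ m ∧ n0 ≤ m ∧ 1 ≤ m ∧ (subsum (sh m x) (sh m ε) < x (m - 1) ∨
      ∑' k, sh m x k - subsum (sh m x) (sh m ε) < x (m - 1)) := by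
  by_contra hcon
  push Not at hcon
  let M' := max M (max n0 1)
  have hM1 : M ≤ M' := le_max_left _ _
  have hM2 : n0 ≤ M' := (le_max_left _ _).trans (le_max_right _ _)
  have hM3 : 1 ≤ M' := (le_max_right _ _).trans (le_max_right _ _)
  have h2 : ∀ n, 2 * sh M' x n ≤ ∑' k, sh (n + 1) (sh M' x) k := by
    intro n
    rw [sh_sh]
    obtain ⟨h3, h4⟩ := hcon (M' + (n + 1)) (by omega) (by omega) (by omega)
    have e1 : M' + (n + 1) - 1 = M' + n := by omega
    rw [e1] at h3 h4
    unfold sh at h3 h4 ⊢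
    linarith
  obtain ⟨h3, h4⟩ := hcon M' hM1 hM2 hM3
  have h5 := h0 (M' - 1)
  have h6 := ejk (sh_pos h0 M') (sh_summable hs M') h2
    (t := subsum (sh M' x) (sh M' ε)) (by linarith) (by linarith)
  exact h6 (mem_level.1 (Z_level (hZ M' hM2))).2

/-- the number `subsum (sh m x) (sh m ε)` or its complement, as a member of the level set -/
lemma sorted_acc (h0 : ∀ n, 0 < x n) (hs : Summable x) (ha : Antitone x)
    (hne : (levelSet x Cardinal.aleph0).Nonempty) (δ : ℝ) (hδ : 0 < δ) :
    ∃ t ∈ levelSet x Cardinal.aleph0, 0 < t ∧ t < δ := by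
  obtain ⟨t, ht⟩ := hne
  obtain ⟨ε, -, n0, hZ⟩ := exists_Z h0 hs ht
  obtain ⟨M, hM⟩ := Filter.eventually_atTop.1
    (hs.tendsto_atTop_zero.eventually (Iio_mem_nhds hδ))
  obtain ⟨m, h1, h2, h3, h4⟩ := small h0 hs hZ (M + 1)
  have h5 : x (m - 1) < δ := hM (m - 1) (by omega)
  have h6 : ∀ k < m, x (m - 1) ≤ x k := fun k hk => ha (by omega)
  have h7 := Z_level (hZ m h2)
  rcases h4 with h | h
  · have h8 := level_small h0 hs (fun k hk => lt_of_lt_of_le h (h6 k hk)) h7
    exact ⟨_, h8, (zero_notMem h0 hs h8).1, h.trans h5⟩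
  · have h8 := level_small h0 hs (fun k hk => lt_of_lt_of_le h (h6 k hk))
      (level_co (sh_pos h0 m) (sh_summable hs m) h7)
    exact ⟨_, h8, (zero_notMem h0 hs h8).1, h.trans h5⟩

/-- the value of `η` or its complement, for the tail -/
noncomputable def val (x : ℕ → ℝ) (m : ℕ) (b : Bool) (η : ℕ → Bool) : ℝ :=
  if b = true then ∑' k, sh m x k - subsum (sh m x) η else subsum (sh m x) η

/-- the members of `Z` of the tail with small value -/
def Y (x : ℕ → ℝ) (m : ℕ) (b : Bool) : Set (ℕ → Bool) :=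
  {η | η ∈ Z (sh m x) ∧ 1 ≤ m ∧ val x m b η < x (m - 1)}

lemma val_cont (h0 : ∀ n, 0 < x n) (hs : Summable x) (m : ℕ) (b : Bool) :
    Continuous (val x m b) := by
  have hc := cont (sh_pos h0 m) (sh_summable hs m)
  cases b
  · have h1 : val x m false = subsum (sh m x) := by funext η; simp [val]
    rw [h1]; exact hc
  · have h1 : val x m true = fun η => ∑' k, sh m x k - subsum (sh m x) η := by
      funext η; simp [val]
    rw [h1]; exact continuous_const.sub hc

lemma sorted_cantor (h0 : ∀ n, 0 < x n) (hs : Summable x) (ha : Antitone x)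
    (hu : ¬ (levelSet x Cardinal.aleph0).Countable) :
    ∃ C : Set ℝ, C ⊆ levelSet x Cardinal.aleph0 ∧ Nonempty (C ≃ₜ cantorSet) := by
  have hn : ∀ n, 0 ≤ x n := fun n => (h0 n).le
  obtain ⟨m, b, hY⟩ : ∃ m b, ¬ (Y x m b).Countable := by
    by_contra hcon
    push Not at hcon
    apply hu
    have hsub : levelSet x Cardinal.aleph0 ⊆ ⋃ m : ℕ, ⋃ b : Bool, ⋃ F : Finset ℕ,
        (fun η => ∑ k ∈ F, x k + subsum (sh m x) η) '' Y x m b := by
      intro t ht
      obtain ⟨ε, hε, n0, hZ⟩ := exists_Z h0 hs ht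
      obtain ⟨m, -, h2, h3, h4⟩ := small h0 hs hZ 0
      have hval : t = ∑ k ∈ (Finset.range m).filter (fun k => ε k = true), x k +
          subsum (sh m x) (sh m ε) := by
        rw [← hε, split hn hs ε m, Finset.sum_filter]
        rfl
      simp only [mem_iUnion]
      rcases h4 with h | h
      · exact ⟨m, false, _, sh m ε, ⟨hZ m h2, h3, by simpa [val] using h⟩, hval.symm⟩
      · exact ⟨m, true, _, sh m ε, ⟨hZ m h2, h3, by simpa [val] using h⟩, hval.symm⟩
    refine Set.Countable.mono hsub ?_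
    exact Set.countable_iUnion fun m => Set.countable_iUnion fun b =>
      Set.countable_iUnion fun F => (hcon m b).image _
  have hmeas : MeasurableSet (Y x m b) := by
    have h1 : Y x m b = Z (sh m x) ∩ ({η | 1 ≤ m} ∩ {η | val x m b η < x (m - 1)}) := by
      ext η; rfl
    rw [h1]
    refine (Z_borel (sh_pos h0 m) (sh_summable hs m)).inter (MeasurableSet.inter ?_ ?_)
    · exact MeasurableSet.const _
    · exact (isOpen_lt (val_cont h0 hs m b) continuous_const).measurableSet
  obtain ⟨g, hgc, hgi, hg⟩ := exists_cantor hmeas hY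
  have hin : ∀ β, val x m b (g β) ∈ levelSet x Cardinal.aleph0 := by
    intro β
    obtain ⟨h1, h2, h3⟩ := hg β
    have h6 : ∀ k < m, x (m - 1) ≤ x k := fun k hk => ha (by omega)
    apply level_small h0 hs (fun k hk => lt_of_lt_of_le h3 (h6 k hk))
    have h7 := Z_level h1
    unfold val
    split_ifs
    · exact level_co (sh_pos h0 m) (sh_summable hs m) h7
    · exact h7
  have hinj : Function.Injective (fun β => val x m b (g β)) := by
    intro β β' h
    apply hgi
    apply Z_inj (hg β).1 (hg β').1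
    have h' : val x m b (g β) = val x m b (g β') := h
    unfold val at h'
    split_ifs at h'
    · linarith
    · exact h'
  have hcont : Continuous (fun β => val x m b (g β)) := (val_cont h0 hs m b).comp hgc
  refine ⟨Set.range (fun β => val x m b (g β)), ?_, ?_⟩
  · rintro _ ⟨β, rfl⟩
    exact hin β
  · have he := (hcont.isClosedEmbedding hinj).isEmbedding.toHomeomorph
    exact ⟨he.symm.trans cantorSetHomeomorphNatToBool.symm⟩

lemma level_perm (e : ℕ ≃ ℕ) (κ : Cardinal) : levelSet (fun n => x (e n)) κ = levelSet x κ := by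
  ext t
  unfold levelSet
  rw [Set.mem_ofPred_eq, Set.mem_ofPred_eq]
  have : cardFun (fun n => x (e n)) t = cardFun x t := by
    unfold cardFun
    refine Cardinal.mk_congr ?_
    refine (Equiv.subtypeEquiv (Equiv.arrowCongr e (Equiv.refl Bool)) fun ε => ?_)
    have h1 : subsum (fun n => x (e n)) ε = subsum x ((Equiv.arrowCongr e (Equiv.refl Bool)) ε) := by
      unfold subsum
      rw [← e.tsum_eq (fun n => if ((Equiv.arrowCongr e (Equiv.refl Bool)) ε) n = true
        then x n else 0)]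
      refine tsum_congr fun n => ?_
      simp [Equiv.arrowCongr]
    rw [h1]
  rw [this]

/-- the trichotomy -/
theorem tri (h0 : ∀ n, 0 < x n) (hs : Summable x) :
    ((levelSet x Cardinal.aleph0).Nonempty → ∀ δ : ℝ, 0 < δ →
      ∃ t ∈ levelSet x Cardinal.aleph0, 0 < t ∧ t < δ) ∧
    (¬ (levelSet x Cardinal.aleph0).Countable →
      ∃ C : Set ℝ, C ⊆ levelSet x Cardinal.aleph0 ∧ Nonempty (C ≃ₜ cantorSet)) := by
  obtain ⟨e, he⟩ := Pool.Agent.H256.CF.exists_sort x h0 hs
  have hs' : Summable (fun n => x (e n)) := (e.summable_iff (f := x)).2 hs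
  have h0' : ∀ n, 0 < x (e n) := fun n => h0 _
  rw [← level_perm e]
  exact ⟨sorted_acc h0' hs' he, sorted_cantor h0' hs' he⟩

end

end Pool.Agent.Zk93.CL
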