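import Mathlib
import Pool.Agent.Zk93.CL.Iso

set_option autoImplicit false

open Set Filter Topology
open Pool.Agent.Results.MP_c42e77_an.ContinuumLevel (subsum cardFun levelSet)

namespace Pool.Agent.Zk93.CL

/-- the coefficients -/
def cf : ℕ → ℝ := fun n => if n % 3 = 0 then 1 else if n % 3 = 1 then 99 else 10

/-- the series `1, 99, 10` over `100`, the same over `100 ^ 2`, and so on -/
noncomputable def hx : ℕ → ℝ := fun n => cf n * (1 / 100 : ℝ) ^ (n / 3 + 1)

lemma cf_pos (n : ℕ) : 0 < cf n := by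
  unfold cf
  split_ifs <;> norm_num

lemma cf_le (n : ℕ) : cf n ≤ 99 := by
  unfold cf
  split_ifs <;> norm_num

lemma hx_pos (n : ℕ) : 0 < hx n := mul_pos (cf_pos n) (by positivity)

lemma hx_nonneg (n : ℕ) : 0 ≤ hx n := (hx_pos n).le

lemma sh_hx : sh 3 hx = fun k => (1 / 100 : ℝ) * hx k := by
  funext k
  unfold sh hx cf
  have h1 : (3 + k) % 3 = k % 3 := by omega
  have h2 : (3 + k) / 3 + 1 = (k / 3 + 1) + 1 := by omega
  rw [h1, h2, pow_succ]
  ring

lemma hx_summable : Summable hx := by
  have h1 : Summable (fun n : ℕ => 990 * (1 / 2 : ℝ) ^ n) :=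
    (summable_geometric_of_lt_one (by norm_num) (by norm_num)).mul_left _
  refine Summable.of_nonneg_of_le hx_nonneg (fun n => ?_) h1
  have h2 : (1 / 100 : ℝ) ^ (n / 3 + 1) ≤ 10 * (1 / 2 : ℝ) ^ n := by
    have h3 : (1 / 100 : ℝ) ≤ (1 / 2) ^ 3 := by norm_num
    have h4 : (1 / 100 : ℝ) ^ (n / 3 + 1) ≤ ((1 / 2 : ℝ) ^ 3) ^ (n / 3 + 1) :=
      pow_le_pow_left₀ (by norm_num) h3 _
    rw [← pow_mul] at h4
    have h5 : (1 / 2 : ℝ) ^ (3 * (n / 3 + 1)) ≤ (1 / 2 : ℝ) ^ n :=
      pow_le_pow_of_le_one (by norm_num) (by norm_num) (by omega)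
    have h6 : (0 : ℝ) < (1 / 2) ^ n := by positivity
    linarith
  unfold hx
  calc cf n * (1 / 100 : ℝ) ^ (n / 3 + 1) ≤ 99 * (10 * (1 / 2 : ℝ) ^ n) :=
        mul_le_mul (cf_le n) h2 (by positivity) (by norm_num)
    _ = _ := by ring

lemma hx_total : ∑' n, hx n = 10 / 9 := by
  have h1 := split_tot hx_summable 3
  rw [sh_hx, tsum_mul_left] at h1
  have h2 : ∑ k ∈ Finset.range 3, hx k = 110 / 100 := by
    simp [Finset.sum_range_succ, hx, cf]
    norm_num
  rw [h2] at h1
  linarith

lemma subsum_sh3 (η : ℕ → Bool) : subsum (sh 3 hx) η = (1 / 100) * subsum hx η := by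
  unfold subsum
  rw [← tsum_mul_left]
  refine tsum_congr fun n => ?_
  rw [sh_hx]
  split_ifs
  · rfl
  · simp

/-- the first digit -/
def dg (ε : ℕ → Bool) : ℤ :=
  (if ε 0 = true then 1 else 0) + (if ε 1 = true then 99 else 0) + (if ε 2 = true then 10 else 0)

lemma step3 (ε : ℕ → Bool) : 100 * subsum hx ε = dg ε + subsum hx (sh 3 ε) := by
  rw [split hx_nonneg hx_summable ε 3, subsum_sh3]
  have : ps hx ε 3 = (dg ε : ℝ) / 100 := by
    unfold ps dg
    simp only [Finset.sum_range_succ, Finset.sum_range_zero, zero_add]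
    unfold hx cf
    push_cast
    cases ε 0 <;> cases ε 1 <;> cases ε 2 <;> norm_num
  rw [this]
  ring

lemma bd (ε : ℕ → Bool) : 0 ≤ subsum hx ε ∧ subsum hx ε ≤ 10 / 9 :=
  ⟨subsum_nonneg hx_nonneg ε, by rw [← hx_total]; exact subsum_le hx_nonneg hx_summable ε⟩

/-- the main representation -/
def mm (ν : ℕ → Bool) : ℕ → Bool := fun n =>
  if n % 3 = 0 then true else if n % 3 = 1 then false else ν (n / 3)

/-- the representation with all coefficients 99 -/
def oo (ν : ℕ → Bool) : ℕ → Bool := fun n =>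
  if n % 3 = 0 then true else if n % 3 = 1 then true else ν (n / 3)

lemma sh_mm (ν : ℕ → Bool) : sh 3 (mm ν) = mm (sh 1 ν) := by
  funext n
  unfold sh mm
  have h1 : (3 + n) % 3 = n % 3 := by omega
  have h2 : (3 + n) / 3 = 1 + n / 3 := by omega
  rw [h1, h2]

lemma sh_oo (ν : ℕ → Bool) : sh 3 (oo ν) = oo (sh 1 ν) := by
  funext n
  unfold sh oo
  have h1 : (3 + n) % 3 = n % 3 := by omega
  have h2 : (3 + n) / 3 = 1 + n / 3 := by omega
  rw [h1, h2]

/-- the number represented -/
noncomputable def TT (ν : ℕ → Bool) : ℝ := subsum hx (mm ν)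

/-- `10` or `0` -/
def nu (ν : ℕ → Bool) : ℤ := if ν 0 = true then 10 else 0

lemma TT_step (ν : ℕ → Bool) : 100 * TT ν = 1 + nu ν + TT (sh 1 ν) := by
  unfold TT
  rw [step3, sh_mm]
  have : dg (mm ν) = 1 + nu ν := by
    unfold dg mm nu
    simp
  rw [this]
  push_cast
  ring

lemma oo_step (ν : ℕ → Bool) : 100 * subsum hx (oo ν) = 100 + nu ν + subsum hx (oo (sh 1 ν)) := by
  rw [step3, sh_oo]
  have : dg (oo ν) = 100 + nu ν := by
    unfold dg oo nu
    simp
  rw [this]
  push_cast
  ring

lemma nu_cases (ν : ℕ → Bool) : nu ν = 0 ∨ nu ν = 10 := by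
  unfold nu
  split_ifs
  · exact Or.inr rfl
  · exact Or.inl rfl

lemma TT_lt (ν : ℕ → Bool) : 0 < TT ν ∧ TT ν < 1 / 8 := by
  have h1 := TT_step ν
  have h2 := bd (mm (sh 1 ν))
  have h2' : 0 ≤ TT (sh 1 ν) ∧ TT (sh 1 ν) ≤ 10 / 9 := h2
  rcases nu_cases ν with h | h
  · rw [h] at h1; push_cast at h1; constructor <;> linarith [h2'.1, h2'.2]
  · rw [h] at h1; push_cast at h1; constructor <;> linarith [h2'.1, h2'.2]

lemma oo_sum (ν : ℕ → Bool) : subsum hx (oo ν) = TT ν + 1 := by
  have key : ∀ k : ℕ, ∀ ν, |subsum hx (oo ν) - TT ν - 1| ≤ 3 * (1 / 100 : ℝ) ^ k := by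
    intro k
    induction k with
    | zero =>
        intro ν
        have h1 := bd (oo ν)
        have h2 := TT_lt ν
        rw [abs_le]
        constructor <;> norm_num <;> linarith [h1.1, h1.2, h2.1, h2.2]
    | succ k ih =>
        intro ν
        have h1 := TT_step ν
        have h2 := oo_step ν
        have h3 := ih (sh 1 ν)
        have h4 : subsum hx (oo ν) - TT ν - 1 =
            (1 / 100) * (subsum hx (oo (sh 1 ν)) - TT (sh 1 ν) - 1) := by linarith
        rw [h4, abs_mul, pow_succ, abs_of_pos (by norm_num : (0 : ℝ) < 1 / 100)]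
        linarith
  have h1 : Tendsto (fun k : ℕ => 3 * (1 / 100 : ℝ) ^ k) atTop (𝓝 (3 * 0)) :=
    (tendsto_pow_atTop_nhds_zero_of_lt_one (by norm_num) (by norm_num)).const_mul _
  rw [mul_zero] at h1
  have h2 : |subsum hx (oo ν) - TT ν - 1| ≤ 0 :=
    ge_of_tendsto h1 (Filter.Eventually.of_forall fun k => key k ν)
  have h3 := abs_nonpos_iff.1 h2
  linarith

/-- the carry is 0 or 1 -/
lemma carry {ε ν : ℕ → Bool} {c : ℤ} (h : subsum hx ε = TT ν + c) :
    ∃ c' : ℤ, (c' = 0 ∨ c' = 1) ∧ subsum hx (sh 3 ε) = TT (sh 1 ν) + c' ∧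
      dg ε = 1 + nu ν + 100 * c - c' := by
  refine ⟨1 + nu ν + 100 * c - dg ε, ?_, ?_, by ring⟩
  · have h1 := step3 ε
    have h2 := TT_step ν
    have h3 := bd (sh 3 ε)
    have h4 := TT_lt (sh 1 ν)
    have h5 : ((1 + nu ν + 100 * c - dg ε : ℤ) : ℝ) = subsum hx (sh 3 ε) - TT (sh 1 ν) := by
      push_cast
      linarith
    have h6 : (-1 : ℝ) < ((1 + nu ν + 100 * c - dg ε : ℤ) : ℝ) := by rw [h5]; linarith [h3.1, h4.2]
    have h7 : ((1 + nu ν + 100 * c - dg ε : ℤ) : ℝ) < 2 := by rw [h5]; linarith [h3.2, h4.1]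
    have h8 : -1 < 1 + nu ν + 100 * c - dg ε := by exact_mod_cast h6
    have h9 : 1 + nu ν + 100 * c - dg ε < 2 := by exact_mod_cast h7
    omega
  · have h1 := step3 ε
    have h2 := TT_step ν
    push_cast
    linarith

lemma dg_one {ε ν : ℕ → Bool} {c' : ℤ} (hc : c' = 0 ∨ c' = 1) (h : dg ε = 1 + nu ν + 100 * 1 - c') :
    c' = 1 ∧ ε 0 = true ∧ ε 1 = true ∧ ε 2 = ν 0 := by
  unfold dg nu at h
  rcases hc with hc | hc <;> subst hc <;>
    cases h0 : ε 0 <;> cases h1 : ε 1 <;> cases h2 : ε 2 <;> cases h3 : ν 0 <;>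
    simp_all

lemma dg_zero {ε ν : ℕ → Bool} {c' : ℤ} (hc : c' = 0 ∨ c' = 1) (h : dg ε = 1 + nu ν + 100 * 0 - c') :
    (c' = 0 ∧ ε 0 = true ∧ ε 1 = false ∧ ε 2 = ν 0) ∨
    (c' = 1 ∧ ε 0 = false ∧ ε 1 = false ∧ ε 2 = ν 0) := by
  unfold dg nu at h
  rcases hc with hc | hc <;> subst hc <;>
    cases h0 : ε 0 <;> cases h1 : ε 1 <;> cases h2 : ε 2 <;> cases h3 : ν 0 <;>
    simp_all

lemma oo_unique {ε ν : ℕ → Bool} (h : subsum hx ε = TT ν + 1) : ε = oo ν := by
  have key : ∀ k : ℕ, ∀ ε ν : ℕ → Bool, subsum hx ε = TT ν + 1 → ∀ n < 3 * k, ε n = oo ν n := by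
    intro k
    induction k with
    | zero => intro ε ν _ n hn; omega
    | succ k ih =>
        intro ε ν h n hn
        obtain ⟨c', hc, h1, h2⟩ := carry (c := 1) (by rw [h]; push_cast; ring)
        obtain ⟨h3, h4, h5, h6⟩ := dg_one hc h2
        subst h3
        have h7 := ih (sh 3 ε) (sh 1 ν) (by rw [h1]; push_cast; ring)
        by_cases hn3 : n < 3
        · interval_cases n
          · simpa [oo] using h4
          · simpa [oo] using h5
          · simpa [oo] using h6
        · have h8 := h7 (n - 3) (by omega)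
          rw [← sh_oo] at h8
          unfold sh at h8
          rwa [show 3 + (n - 3) = n by omega] at h8
  funext n
  exact key (n + 1) ε ν h n (by omega)

/-- first three digits `a, false, ν 0` -/
def w3 (a : Bool) (ν : ℕ → Bool) : ℕ → Bool := fun n =>
  if n = 0 then a else if n = 1 then false else ν 0

/-- the alternative representations -/
def AA : ℕ → (ℕ → Bool) → ℕ → Bool
  | 0, ν => pre 3 (w3 false ν) (oo (sh 1 ν))
  | k + 1, ν => pre 3 (w3 true ν) (AA k (sh 1 ν))

lemma pre_three (a : Bool) (ν η : ℕ → Bool) : 100 * subsum hx (pre 3 (w3 a ν) η) =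
    (if a = true then 1 else 0) + nu ν + subsum hx η := by
  rw [step3, sh_pre]
  have : dg (pre 3 (w3 a ν) η) = (if a = true then 1 else 0) + nu ν := by
    unfold dg nu pre w3
    simp
  rw [this]
  push_cast
  ring

lemma AA_sum (k : ℕ) (ν : ℕ → Bool) : subsum hx (AA k ν) = TT ν := by
  induction k generalizing ν with
  | zero =>
      have h1 := pre_three false ν (oo (sh 1 ν))
      have h2 := TT_step ν
      have h3 := oo_sum (sh 1 ν)
      have h4 : subsum hx (AA 0 ν) = subsum hx (pre 3 (w3 false ν) (oo (sh 1 ν))) := rfl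
      rw [h4]
      simp only [Bool.false_eq_true, if_false] at h1
      linarith
  | succ k ih =>
      have h1 := pre_three true ν (AA k (sh 1 ν))
      have h2 := TT_step ν
      have h3 := ih (sh 1 ν)
      have h4 : subsum hx (AA (k + 1) ν) = subsum hx (pre 3 (w3 true ν) (AA k (sh 1 ν))) := rfl
      rw [h4]
      simp only [if_true] at h1
      linarith

lemma AA_self (k : ℕ) (ν : ℕ → Bool) : AA k ν (3 * k) = false := by
  induction k generalizing ν with
  | zero => simp [AA, pre, w3]
  | succ k ih =>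
      have h1 : AA (k + 1) ν (3 * (k + 1)) = AA k (sh 1 ν) (3 * k) := by
        show pre 3 _ _ _ = _
        unfold pre
        rw [if_neg (by omega)]
        congr 1
      rw [h1, ih]

lemma AA_other {k l : ℕ} (h : k < l) (ν : ℕ → Bool) : AA l ν (3 * k) = true := by
  induction l generalizing ν k with
  | zero => omega
  | succ l ih =>
      show pre 3 _ _ _ = _
      by_cases hk : k = 0
      · subst hk
        simp [pre, w3]
      · unfold pre
        rw [if_neg (by omega), show 3 * k - 3 = 3 * (k - 1) by omega]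
        exact ih (by omega) _

lemma reps {ε ν : ℕ → Bool} (h : subsum hx ε = TT ν) : ε = mm ν ∨ ∃ j, ε = AA j ν := by
  have key : ∀ k : ℕ, ∀ ε ν : ℕ → Bool, subsum hx ε = TT ν →
      (∃ j, ε = AA j ν) ∨ ∀ n < 3 * k, ε n = mm ν n := by
    intro k
    induction k with
    | zero => intro ε ν _; exact Or.inr fun n hn => by omega
    | succ k ih =>
        intro ε ν h
        obtain ⟨c', hc, h1, h2⟩ := carry (c := 0) (by rw [h]; push_cast; ring)
        rcases dg_zero hc h2 with ⟨h3, h4, h5, h6⟩ | ⟨h3, h4, h5, h6⟩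
        · subst h3
          have h7 : subsum hx (sh 3 ε) = TT (sh 1 ν) := by rw [h1]; push_cast; ring
          rcases ih (sh 3 ε) (sh 1 ν) h7 with ⟨j, hj⟩ | h8
          · left
            refine ⟨j + 1, ?_⟩
            show ε = pre 3 (w3 true ν) (AA j (sh 1 ν))
            rw [← hj]
            refine (pre_sh 3 _ ε fun n hn => ?_).symm
            interval_cases n
            · simp [w3, h4]
            · simp [w3, h5]
            · simp [w3, h6]
          · right
            intro n hn
            by_cases hn3 : n < 3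
            · interval_cases n
              · simpa [mm] using h4
              · simpa [mm] using h5
              · simpa [mm] using h6
            · have h9 := h8 (n - 3) (by omega)
              rw [← sh_mm] at h9
              unfold sh at h9
              rwa [show 3 + (n - 3) = n by omega] at h9
        · subst h3
          left
          refine ⟨0, ?_⟩
          have h7 : sh 3 ε = oo (sh 1 ν) := oo_unique (by rw [h1]; push_cast; ring)
          show ε = pre 3 (w3 false ν) (oo (sh 1 ν))
          rw [← h7]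
          refine (pre_sh 3 _ ε fun n hn => ?_).symm
          interval_cases n
          · simp [w3, h4]
          · simp [w3, h5]
          · simp [w3, h6]
  by_cases hex : ∃ j, ε = AA j ν
  · exact Or.inr hex
  · left
    funext n
    rcases key (n + 1) ε ν h with h1 | h1
    · exact absurd h1 hex
    · exact h1 n (by omega)

lemma TT_level (ν : ℕ → Bool) : TT ν ∈ levelSet hx Cardinal.aleph0 := by
  rw [mem_level]
  constructor
  · have hinj : Function.Injective (fun k => AA k ν) := by
      have key : ∀ k l, k < l → AA k ν ≠ AA l ν := by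
        intro k l hkl h
        have h1 := AA_self k ν
        rw [h, AA_other hkl ν] at h1
        exact Bool.noConfusion h1
      intro k l hkl
      rcases lt_trichotomy k l with h | h | h
      · exact absurd hkl (key k l h)
      · exact h
      · exact absurd hkl.symm (key l k h)
    exact Set.infinite_of_injective_forall_mem hinj fun k => AA_sum k ν
  · refine Set.Countable.mono (s₂ := {mm ν} ∪ Set.range (fun k => AA k ν)) ?_
      ((Set.countable_singleton _).union (Set.countable_range _))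
    intro ε hε
    rcases reps hε with h | ⟨j, h⟩
    · exact Or.inl h
    · exact Or.inr ⟨j, h.symm⟩

lemma TT_inj : Function.Injective TT := by
  intro ν ν' h
  rcases reps (ε := mm ν') (ν := ν) h.symm with h1 | ⟨j, h1⟩
  · funext j
    have h2 := congrFun h1 (3 * j + 2)
    unfold mm at h2
    have e1 : (3 * j + 2) % 3 = 2 := by omega
    have e2 : (3 * j + 2) / 3 = j := by omega
    rw [e1, e2] at h2
    simpa using h2.symm
  · have h2 := congrFun h1 (3 * j)
    rw [AA_self] at h2
    unfold mm at h2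
    have e1 : (3 * j) % 3 = 0 := by omega
    rw [e1] at h2
    simp at h2

lemma hx_uncountable : ¬ (levelSet hx Cardinal.aleph0).Countable := by
  intro hcount
  have h3 : (Set.range TT).Countable := hcount.mono (by
    rintro _ ⟨ν, rfl⟩
    exact TT_level ν)
  have h4 : (Set.univ : Set (ℕ → Bool)).Countable := by
    rw [← Set.image_univ] at h3
    exact Set.countable_of_injective_of_countable_image TT_inj.injOn h3
  have h5 : Cardinal.mk (ℕ → Bool) ≤ Cardinal.aleph0 := by
    rw [Cardinal.mk_le_aleph0_iff]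
    exact Set.countable_univ_iff.1 h4
  have h6 : Cardinal.mk (ℕ → Bool) = Cardinal.continuum := by simp
  rw [h6] at h5
  exact absurd Cardinal.aleph0_lt_continuum (not_lt.2 h5)

end Pool.Agent.Zk93.CL
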